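import Mathlib
import Pool.Agent.Lib.MP_cf7718_co.Final

open Pool.Agent.Lib.MP_cf7718_co

namespace Pool.Agent.Results.MP_cf7718_co.ConvexLowerBound

/-- For every real `α ≥ 2`, `a(α) ≥ 2 f(α)`, where `a(α) = lim_n a_n(α)` is the optimal average
effective resistance of multigraphs on `n` vertices with at most `α n / 2` edges, and `f` is the
largest convex function on `[2, ∞)` with `f(2) ≤ 1` and `f(x) ≤ (x-1)/(x(x-2))` for `x > 2`. -/
theorem result (α : ℝ) (hα : 2 ≤ α) : ENNReal.ofReal (2 * cmpFun α) ≤ aLim α :=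
  main hα

end Pool.Agent.Results.MP_cf7718_co.ConvexLowerBound
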